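import Pool.Agent.Y609.WS.Fin2

/-! Weakly sequentially hypercyclic operators on `ℓ_p` which are not weakly 1-sequentially
hypercyclic. -/

set_option autoImplicit false

open Filter Topology
open scoped ENNReal

namespace Pool.Agent.Results.MP_08c933_an.WeakSeqNotOneSeq

variable (𝕜 : Type) [RCLike 𝕜] {X : Type} [NormedAddCommGroup X] [NormedSpace 𝕜 X]

/-- The sequence `u` converges weakly to `y`. -/
def WeaklyTendsto (u : ℕ → X) (y : X) : Prop :=
  ∀ φ : X →L[𝕜] 𝕜, Tendsto (fun k => φ (u k)) atTop (𝓝 (φ y))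

/-- `M` is sequentially closed in the weak topology: it contains the weak limit of every weakly
convergent sequence of its elements. -/
def IsWeaklySeqClosed (M : Set X) : Prop :=
  ∀ (u : ℕ → X) (y : X), (∀ k, u k ∈ M) → WeaklyTendsto 𝕜 u y → y ∈ M

/-- The sequential closure of `A` in the weak topology: the intersection of all weakly sequentially
closed sets containing `A`. -/
def seqClosure (A : Set X) : Set X :=
  {y | ∀ M : Set X, IsWeaklySeqClosed 𝕜 M → A ⊆ M → y ∈ M}

/-- The orbit of `x` under `T`. -/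
def orbit (T : X →L[𝕜] X) (x : X) : Set X := Set.range fun n : ℕ => (T ^ n) x

/-- `T` is weakly sequentially hypercyclic: some orbit is sequentially dense in the weak
topology. -/
def IsWeaklySequentiallyHypercyclic (T : X →L[𝕜] X) : Prop :=
  ∃ x : X, seqClosure 𝕜 (orbit 𝕜 T x) = Set.univ

/-- `T` is weakly 1-sequentially hypercyclic: there is `x` such that every `y` is the weak limit of
some sequence of elements of the orbit of `x`. -/
def IsWeaklyOneSequentiallyHypercyclic (T : X →L[𝕜] X) : Prop :=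
  ∃ x : X, ∀ y : X, ∃ u : ℕ → X, (∀ k, u k ∈ orbit 𝕜 T x) ∧ WeaklyTendsto 𝕜 u y

theorem lp_separable (𝕜 : Type) [RCLike 𝕜] (p : ℝ≥0∞) [Fact (1 ≤ p)] (hp : p ≠ ∞) :
    TopologicalSpace.SeparableSpace (lp (fun _ : ℕ => 𝕜) p) := by
  rw [← TopologicalSpace.isSeparable_univ_iff]
  have h1 : TopologicalSpace.IsSeparable
      (⋃ i : ℕ, Set.range (lp.singleContinuousLinearMap 𝕜 (fun _ : ℕ => 𝕜) p i)) := by
    apply TopologicalSpace.IsSeparable.iUnion
    intro i
    exact TopologicalSpace.isSeparable_range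
      (lp.singleContinuousLinearMap 𝕜 (fun _ : ℕ => 𝕜) p i).continuous
  have h2 := (h1.span (R := 𝕜)).closure
  refine h2.mono (fun f _ => ?_)
  refine mem_closure_of_tendsto (lp.hasSum_single hp f) (Eventually.of_forall (fun s => ?_))
  apply Submodule.sum_mem
  intro i _
  apply Submodule.subset_span
  exact Set.mem_iUnion.2 ⟨i, ⟨f i, rfl⟩⟩

/-- For real and for complex scalars, on each `ℓ_p` with `1 < p < ∞` (in particular on the
infinite dimensional separable Hilbert space) there is a bounded linear operator which is weakly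
sequentially hypercyclic but not weakly 1-sequentially hypercyclic. -/
theorem result (𝕜 : Type) [RCLike 𝕜] (p : ℝ≥0∞) [Fact (1 ≤ p)] (h1 : 1 < p) (hp : p ≠ ∞) :
    ∃ T : lp (fun _ : ℕ => 𝕜) p →L[𝕜] lp (fun _ : ℕ => 𝕜) p,
      IsWeaklySequentiallyHypercyclic 𝕜 T ∧ ¬ IsWeaklyOneSequentiallyHypercyclic 𝕜 T := by
  haveI := lp_separable 𝕜 p hp
  have hc : Pool.Agent.Y609.WS.Compl 𝕜 (lp (fun _ : ℕ => 𝕜) p) (lp (fun _ : ℕ => 𝕜) p) :=
    ⟨ContinuousLinearMap.id 𝕜 _, ContinuousLinearMap.id 𝕜 _, fun _ => rfl⟩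
  obtain ⟨T, ⟨x, hx⟩, hn⟩ := Pool.Agent.Y609.WS.found2_lp h1 hp hc
  refine ⟨T, ⟨x, Set.eq_univ_of_forall fun y M hM hA => ?_⟩, ?_⟩
  · obtain ⟨v, hv, hvy⟩ := mem_closure_iff_seq_limit.1 (hx y)
    refine hM v y (fun k => ?_) fun φ => (φ.continuous.tendsto _).comp hvy
    obtain ⟨n, hn⟩ := hv k
    exact hM (fun j => (T ^ n j) x) (v k) (fun j => hA ⟨n j, rfl⟩) hn
  · rintro ⟨x', hx'⟩
    apply hn x'
    intro y
    obtain ⟨u, hu, huy⟩ := hx' y
    choose n hn' using hu
    refine ⟨n, fun φ => ?_⟩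
    have h3 := huy φ
    refine h3.congr fun k => ?_
    rw [← hn' k]

end Pool.Agent.Results.MP_08c933_an.WeakSeqNotOneSeq
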